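import Mathlib
import Pool.Agent.W795.DD.Stm2
import Pool.Agent.W785.DF.Alg

/-!
# The nonlinear term of plane waves, Young inequality
-/

set_option autoImplicit false

namespace Pool.Agent.W366.DD

open H459R3.NS (V K3)
open Pool.Agent.W795.DD
open Pool.Agent.W785.DF (E3 dk kv cj Pk Nl Fld Fr dk_add dk_smul dk_zero dk_neg_left dk_sub_left
  dk_cj cj_cj cj_zero cj_smul cj_kv norm_cj norm_dk_le norm_Pk_le sq_pos' sq_neg')

theorem neg_ne {κ : K3} (h : κ ≠ 0) : κ ≠ -κ := by
  intro e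
  apply h
  funext j
  have h1 := congrFun e j
  simp only [Pi.neg_apply, Pi.zero_apply] at h1 ⊢
  omega

theorem PW_self (κ : K3) (a : E3) : PW κ a κ = a := if_pos rfl

theorem PW_neg {κ : K3} (h : κ ≠ -κ) (a : E3) : PW κ a (-κ) = cj a := by
  unfold PW
  rw [if_neg (Ne.symm h), if_pos rfl]

theorem PW_ne {κ k : K3} (h : k ≠ κ) (h' : k ≠ -κ) (a : E3) : PW κ a k = 0 := by
  unfold PW
  rw [if_neg h, if_neg h']

theorem sum_PW {M : Type} [AddCommMonoid M] {S : Finset K3} {κ : K3} (hS : Fr S) (hκ : κ ∈ S)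
    (a : E3) (F : K3 → E3 → M) (hF : ∀ k, F k 0 = 0) :
    ∑ k ∈ S, F k (PW κ a k) = F κ a + F (-κ) (cj a) := by
  classical
  have hne := neg_ne (hS.ne hκ)
  have h1 : ({κ, -κ} : Finset K3) ⊆ S := by
    intro k hk
    rw [Finset.mem_insert, Finset.mem_singleton] at hk
    rcases hk with rfl | rfl
    · exact hκ
    · exact hS.neg _ hκ
  rw [← Finset.sum_subset h1, Finset.sum_pair hne, PW_self, PW_neg hne]
  intro k _ hk
  rw [Finset.mem_insert, Finset.mem_singleton, not_or] at hk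
  rw [PW_ne hk.1 hk.2, hF]

theorem PW_eq {κ : K3} (h : κ ≠ -κ) (a : E3) (k : K3) :
    PW κ a k = (if k = κ then a else 0) + (if k = -κ then cj a else 0) := by
  unfold PW
  by_cases h1 : k = κ
  · rw [if_pos h1, if_pos h1, if_neg, add_zero]
    rw [h1]
    exact h
  · rw [if_neg h1, if_neg h1, zero_add]

theorem ab_pos {k : K3} (hk : k ≠ 0) : 0 < ab k := Real.sqrt_pos.2 (sq_pos' hk)

theorem ab_neg (k : K3) : ab (-k) = ab k := by
  unfold ab
  rw [sq_neg']

theorem Bl_PW {S : Finset K3} {κ : K3} (hS : Fr S) (hκ : κ ∈ S) (a : E3) (b : K3 → E3) (k : K3) :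
    Bl S (PW κ a) b k = (2 * Real.pi * Complex.I * dk (k - κ) a) • b (k - κ) +
      (2 * Real.pi * Complex.I * dk (k + κ) (cj a)) • b (k + κ) := by
  have h1 := sum_PW hS hκ a (fun l v => (2 * Real.pi * Complex.I * dk (k - l) v) • b (k - l))
    (fun l => by
      change (2 * Real.pi * Complex.I * dk (k - l) 0) • b (k - l) = 0
      rw [dk_zero, mul_zero, zero_smul])
  simp only [sub_neg_eq_add] at h1
  exact h1

theorem Fld_PW {S : Finset K3} {κ : K3} (hS : Fr S) (hκ : κ ∈ S) {a : E3} (ha : dk κ a = 0) :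
    Fld S (PW κ a) := by
  have hne := neg_ne (hS.ne hκ)
  refine ⟨fun k hk => ?_, fun k => ?_, fun k => ?_⟩
  · refine PW_ne ?_ ?_ a
    · rintro rfl
      exact hk hκ
    · rintro rfl
      exact hk (hS.neg _ hκ)
  · by_cases h1 : k = κ
    · rw [h1, PW_neg hne, PW_self]
    · by_cases h2 : k = -κ
      · rw [h2, neg_neg, PW_self, PW_neg hne, cj_cj]
      · rw [PW_ne h1 h2, PW_ne, cj_zero]
        · intro h3
          exact h2 (by rw [← h3, neg_neg])
        · intro h3
          exact h1 (neg_injective h3)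
  · by_cases h1 : k = κ
    · rw [h1, PW_self, ha]
    · by_cases h2 : k = -κ
      · rw [h2, PW_neg hne, dk_neg_left, dk_cj, ha, star_zero, neg_zero]
      · rw [PW_ne h1 h2, dk_zero]

theorem A_zero (S : Finset K3) (a : K3 → E3) : A 0 S a = ∑ k ∈ S, ‖a k‖ := by
  unfold A
  exact Finset.sum_congr rfl fun k _ => by rw [pow_zero, one_mul]

theorem norm_Bl_le {S : Finset K3} {a b : K3 → E3} (ha : Fld S a) (k : K3) :
    ‖Bl S a b k‖ ≤ ab k * (2 * Real.pi * ∑ l ∈ S, ‖a l‖ * ‖b (k - l)‖) := by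
  have hpi := Real.pi_pos
  unfold Bl
  rw [Finset.mul_sum, Finset.mul_sum]
  refine (norm_sum_le _ _).trans (Finset.sum_le_sum fun l _ => ?_)
  rw [norm_smul, norm_mul, norm_mul, norm_mul, Complex.norm_I, Complex.norm_real,
    Real.norm_of_nonneg hpi.le, Complex.norm_ofNat, mul_one, dk_sub_left, ha.div l, sub_zero]
  have h1 := norm_dk_le k (a l)
  calc 2 * Real.pi * ‖dk k (a l)‖ * ‖b (k - l)‖
      ≤ 2 * Real.pi * (ab k * ‖a l‖) * ‖b (k - l)‖ := by
        refine mul_le_mul_of_nonneg_right ?_ (norm_nonneg _)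
        exact mul_le_mul_of_nonneg_left h1 (by positivity)
    _ = ab k * (2 * Real.pi * (‖a l‖ * ‖b (k - l)‖)) := by ring

theorem shift_le {S : Finset K3} {b : K3 → E3} (hb : ∀ k, k ∉ S → b k = 0) (l : K3) :
    ∑ k ∈ S, ‖b (k - l)‖ ≤ ∑ k ∈ S, ‖b k‖ := by
  classical
  have e1 : ∑ k ∈ S, ‖b (k - l)‖ = ∑ k ∈ S.image (fun k => k - l), ‖b k‖ := by
    rw [Finset.sum_image]
    intro x _ y _ h
    simpa using h
  rw [e1]
  calc ∑ k ∈ S.image (fun k => k - l), ‖b k‖
      ≤ ∑ k ∈ S.image (fun k => k - l) ∪ S, ‖b k‖ :=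
        Finset.sum_le_sum_of_subset_of_nonneg Finset.subset_union_left
          (fun k _ _ => norm_nonneg _)
    _ = ∑ k ∈ S, ‖b k‖ := by
        symm
        exact Finset.sum_subset Finset.subset_union_right
          (fun k _ hk => by rw [hb k hk, norm_zero])

theorem proof : Pool.Agent.W795.DD.S_pw := by
  refine ⟨?_, ?_, ?_, ?_, ?_, norm_Pk_le, ?_⟩
  · intro μ p z
    funext k
    unfold MF PW
    rw [cj_smul, cj_kv]
  · intro S hS κ a hκ ha
    refine ⟨Fld_PW hS hκ ha, fun m => ?_, ?_⟩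
    · have h1 := sum_PW hS hκ a (fun k v => ab k ^ m * ‖v‖) (fun k => by
        change ab k ^ m * ‖(0 : E3)‖ = 0
        rw [norm_zero, mul_zero])
      simp only [ab_neg, norm_cj] at h1
      unfold A
      rw [h1]
      ring
    · have h1 := sum_PW hS hκ a (fun k v => ‖v‖ / ab k) (fun k => by
        change ‖(0 : E3)‖ / ab k = 0
        rw [norm_zero, zero_div])
      simp only [ab_neg, norm_cj] at h1
      unfold An
      rw [h1]
      ring
  · intro S hS κ a hκ ha k
    have hne := neg_ne (hS.ne hκ)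
    rw [Bl_PW hS hκ]
    have e1 : (2 * Real.pi * Complex.I * dk (k - κ) a) • PW κ a (k - κ) = 0 := by
      by_cases h1 : k - κ = κ
      · rw [h1, ha, mul_zero, zero_smul]
      · by_cases h2 : k - κ = -κ
        · rw [h2, dk_neg_left, ha, neg_zero, mul_zero, zero_smul]
        · rw [PW_ne h1 h2, smul_zero]
    have e2 : (2 * Real.pi * Complex.I * dk (k + κ) (cj a)) • PW κ a (k + κ) = 0 := by
      by_cases h1 : k + κ = κ
      · rw [h1, dk_cj, ha, star_zero, mul_zero, zero_smul]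
      · by_cases h2 : k + κ = -κ
        · rw [h2, dk_neg_left, dk_cj, ha, star_zero, neg_zero, mul_zero, zero_smul]
        · rw [PW_ne h1 h2, smul_zero]
    rw [e1, e2, add_zero]
  · intro S hS κ κ' a b hκ hκ' _ _ k
    have hne := neg_ne (hS.ne hκ')
    have key : ∀ (m n : K3) (v w : E3), (2 * Real.pi * Complex.I * dk m v) •
        (if m = n then w else (0 : E3)) =
        if m = n then (2 * Real.pi * Complex.I * dk n v) • w else 0 := by
      intro m n v w
      by_cases h : m = n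
      · rw [if_pos h, if_pos h, h]
      · rw [if_neg h, if_neg h, smul_zero]
    rw [Bl_PW hS hκ, PW_eq hne, PW_eq hne, smul_add, smul_add, key, key, key, key]
    have c1 : (k - κ = κ') ↔ (k = κ + κ') := by
      rw [sub_eq_iff_eq_add, add_comm]
    have c2 : (k - κ = -κ') ↔ (k = κ - κ') := by
      rw [sub_eq_iff_eq_add, sub_eq_add_neg, add_comm]
    have c3 : (k + κ = κ') ↔ (k = κ' - κ) := eq_sub_iff_add_eq.symm
    have c4 : (k + κ = -κ') ↔ (k = -κ - κ') := by
      rw [← eq_sub_iff_add_eq, show -κ' - κ = -κ - κ' by abel]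
    simp only [c1, c2, c3, c4]
    abel
  · intro S hS a b ha hb
    have hpi := Real.pi_pos
    have h1 : ∀ k ∈ S, ‖Bl S a b k‖ / ab k ≤ 2 * Real.pi * ∑ l ∈ S, ‖a l‖ * ‖b (k - l)‖ := by
      intro k hk
      rw [div_le_iff₀ (ab_pos (hS.ne hk)), mul_comm _ (ab k)]
      exact norm_Bl_le ha k
    calc An S (Bl S a b) = ∑ k ∈ S, ‖Bl S a b k‖ / ab k := rfl
      _ ≤ ∑ k ∈ S, 2 * Real.pi * ∑ l ∈ S, ‖a l‖ * ‖b (k - l)‖ := Finset.sum_le_sum h1
      _ = 2 * Real.pi * ∑ l ∈ S, ‖a l‖ * ∑ k ∈ S, ‖b (k - l)‖ := by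
          rw [← Finset.mul_sum, Finset.sum_comm]
          congr 1
          exact Finset.sum_congr rfl fun l _ => by rw [Finset.mul_sum]
      _ ≤ 2 * Real.pi * ∑ l ∈ S, ‖a l‖ * ∑ k ∈ S, ‖b k‖ := by
          refine mul_le_mul_of_nonneg_left (Finset.sum_le_sum fun l _ => ?_) (by positivity)
          exact mul_le_mul_of_nonneg_left (shift_le hb.supp l) (norm_nonneg _)
      _ = 2 * Real.pi * A 0 S a * A 0 S b := by
          rw [← Finset.sum_mul, A_zero, A_zero]
          ring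
  · intro S a a' b b' k
    unfold Bl
    rw [← Finset.sum_add_distrib, ← Finset.sum_add_distrib, ← Finset.sum_add_distrib]
    refine Finset.sum_congr rfl fun l _ => ?_
    rw [Pi.add_apply, Pi.add_apply, dk_add, mul_add, add_smul, smul_add, smul_add]
    abel

end Pool.Agent.W366.DD
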